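import Pool.Agent.K1H32.FE.Stm

/-!
# Piece FE-16 (S_UPP) for helper32
-/

set_option autoImplicit false

open Filter Topology

namespace Pool.Agent.K1H65.FE

open Pool.Agent.K1H32.FE

lemma sum_wp {ι : Type} [Fintype ι] {m : ι → ℝ} (hm : IsPr m) (k : ℕ) :
    ∑ w : Fin k → ι, wp m k w = 1 := by
  classical
  have h1 : ∑ w : Fin k → ι, ∏ i, m (w i) = ∏ _i : Fin k, ∑ j, m j := by
    rw [Finset.prod_univ_sum, Fintype.piFinset_univ]
  unfold wp
  rw [h1, hm.sum, Finset.prod_const_one]

lemma wp_nonneg {ι : Type} {m : ι → ℝ} (hm : ∀ i, 0 ≤ m i) (k : ℕ) (w : Fin k → ι) :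
    0 ≤ wp m k w := Finset.prod_nonneg fun _ _ => hm _

/-- sums over an injective image -/
lemma sum_inj {A B : Type} [Fintype A] [Fintype B] (φ : A → B) (hφ : Function.Injective φ)
    (G : B → ℝ) (hG : ∀ b, 0 ≤ G b) : ∑ a, G (φ a) ≤ ∑ b, G b := by
  classical
  rw [← Finset.sum_image (s := Finset.univ) (f := G) (g := φ) (fun a _ b _ h => hφ h)]
  exact Finset.sum_le_sum_of_subset_of_nonneg (Finset.subset_univ _) fun b _ _ => hG b

open Classical in
lemma pr_diff {A B α : Type} [Fintype A] [Fintype B] (φ : A → B) (hφ : Function.Injective φ)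
    (p : B → ℝ) (hp : ∀ b, 0 ≤ p b) (X : B → α) (a : α) :
    pr (fun x => p (φ x)) (fun x => X (φ x)) a ≤ pr p X a ∧
      pr p X a ≤ pr (fun x => p (φ x)) (fun x => X (φ x)) a + (∑ b, p b - ∑ x, p (φ x)) := by
  have h1 := sum_inj φ hφ (fun b => if X b = a then p b else 0) (fun b => by
    split_ifs
    · exact hp b
    · exact le_rfl)
  have h2 := sum_inj φ hφ (fun b => p b - if X b = a then p b else 0) (fun b => by
    split_ifs
    · rw [sub_self]
    · rw [sub_zero]
      exact hp b)
  rw [Finset.sum_sub_distrib, Finset.sum_sub_distrib] at h2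
  unfold pr
  exact ⟨h1, by linarith⟩

theorem t_UPP (hE : S_EVEQ) (hM : S_MONO) (hC : S_COND) (hL : S_LAWF) : S_UPP := by
  classical
  intro ι _ Γn Γ σ m κ _ τ r e hconv M hcard k ε hε
  have hev := hE ι Γn Γ σ m κ τ r e hconv k
  -- the map
  let f : ℕ → SL → Option SL := fun n g =>
    if h : ∃ w : Fin k → ι, wx (fun i => τ n (e n i)) k w = g then some (wx σ k h.choose) else none
  let Y : ∀ n, (Fin k → κ n) → Option SL := fun n ω => f n (wx (τ n) k ω)
  have hf : ∀ᶠ n in atTop, ∀ w : Fin k → ι,
      f n (wx (fun i => τ n (e n i)) k w) = some (wx σ k w) := by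
    refine hev.mono fun n hn w => ?_
    have h : ∃ w' : Fin k → ι, wx (fun i => τ n (e n i)) k w' = wx (fun i => τ n (e n i)) k w :=
      ⟨w, rfl⟩
    change (if h : ∃ w' : Fin k → ι, wx (fun i => τ n (e n i)) k w' =
      wx (fun i => τ n (e n i)) k w then some (wx σ k h.choose) else none) = _
    rw [dif_pos h]
    congr 1
    exact (hn _ _).mp h.choose_spec
  have hfsome : ∀ n g g', f n g = some g' → ∃ w : Fin k → ι,
      wx (fun i => τ n (e n i)) k w = g ∧ wx σ k w = g' := by
    intro n g g' h
    by_cases hw : ∃ w : Fin k → ι, wx (fun i => τ n (e n i)) k w = g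
    · change (if h : ∃ w : Fin k → ι, wx (fun i => τ n (e n i)) k w = g then
        some (wx σ k h.choose) else none) = _ at h
      rw [dif_pos hw, Option.some.injEq] at h
      exact ⟨hw.choose, hw.choose_spec, h⟩
    · change (if h : ∃ w : Fin k → ι, wx (fun i => τ n (e n i)) k w = g then
        some (wx σ k h.choose) else none) = _ at h
      rw [dif_neg hw] at h
      exact absurd h (by simp)
  -- the masses
  let A : ℕ → ℝ := fun n => ∑ w : Fin k → ι, wp (fun i => r n (e n i)) k w
  have hwt : ∀ w : Fin k → ι, Tendsto (fun n => wp (fun i => r n (e n i)) k w) atTop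
      (𝓝 (wp m k w)) := by
    intro w
    unfold wp
    exact tendsto_finsetProd _ fun i _ => hconv.weights (w i)
  have hA : Tendsto A atTop (𝓝 1) := by
    rw [← sum_wp hconv.pr k]
    exact tendsto_finsetSum _ fun w _ => hwt w
  have hpn : ∀ n (ω : Fin k → κ n), 0 ≤ wp (r n) k ω := fun n ω =>
    wp_nonneg (hconv.pr_n n).nonneg k ω
  have hinj : ∀ᶠ n in atTop, Function.Injective fun w : Fin k → ι => fun i => e n (w i) :=
    hconv.inj.mono fun n hn w w' h => funext fun i => hn (congrFun h i)
  -- the limit of the law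
  have hsome : ∀ g : SL, Tendsto (fun n => pr (wp (r n) k) (Y n) (some g)) atTop
      (𝓝 (pr (wp m k) (wx σ k) g)) := by
    intro g
    have hlow : Tendsto (fun n => pr (wp (fun i => r n (e n i)) k) (wx σ k) g) atTop
        (𝓝 (pr (wp m k) (wx σ k) g)) := by
      unfold pr
      refine tendsto_finsetSum _ fun w _ => ?_
      by_cases h : wx σ k w = g
      · simp only [if_pos h]
        exact hwt w
      · simp only [if_neg h]
        exact tendsto_const_nhds
    have hup : Tendsto (fun n => pr (wp (fun i => r n (e n i)) k) (wx σ k) g + (1 - A n)) atTop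
        (𝓝 (pr (wp m k) (wx σ k) g)) := by
      have := hlow.add (tendsto_const_nhds (x := (1 : ℝ)).sub hA)
      simpa using this
    have key : ∀ᶠ n in atTop, pr (wp (fun i => r n (e n i)) k) (wx σ k) g ≤
        pr (wp (r n) k) (Y n) (some g) ∧ pr (wp (r n) k) (Y n) (some g) ≤
        pr (wp (fun i => r n (e n i)) k) (wx σ k) g + (1 - A n) := by
      filter_upwards [hinj, hf] with n hn hfn
      have h1 := pr_diff (fun w : Fin k → ι => fun i => e n (w i)) hn (wp (r n) k) (hpn n) (Y n)
        (some g)
      have h2 : pr (fun w : Fin k → ι => wp (r n) k fun i => e n (w i))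
          (fun w : Fin k → ι => Y n fun i => e n (w i)) (some g) =
          pr (wp (fun i => r n (e n i)) k) (wx σ k) g := by
        unfold pr
        refine Finset.sum_congr rfl fun w _ => ?_
        have h3 : (Y n fun i => e n (w i)) = some (wx σ k w) := hfn w
        beta_reduce
        rw [h3]
        by_cases hg : wx σ k w = g
        · rw [if_pos hg, if_pos (by rw [hg])]
          rfl
        · rw [if_neg hg, if_neg (fun h => hg (Option.some.inj h))]
      rw [h2, sum_wp (hconv.pr_n n)] at h1
      exact h1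
    exact tendsto_of_tendsto_of_tendsto_of_le_of_le' hlow hup (key.mono fun n h => h.1)
      (key.mono fun n h => h.2)
  have hnone : Tendsto (fun n => pr (wp (r n) k) (Y n) none) atTop (𝓝 0) := by
    have hup : Tendsto (fun n => 1 - A n) atTop (𝓝 0) := by
      have := (tendsto_const_nhds (x := (1 : ℝ))).sub hA
      simpa using this
    have key : ∀ᶠ n in atTop, 0 ≤ pr (wp (r n) k) (Y n) none ∧
        pr (wp (r n) k) (Y n) none ≤ 1 - A n := by
      filter_upwards [hinj, hf] with n hn hfn
      have h1 := pr_diff (fun w : Fin k → ι => fun i => e n (w i)) hn (wp (r n) k) (hpn n) (Y n)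
        none
      have h2 : pr (fun w : Fin k → ι => wp (r n) k fun i => e n (w i))
          (fun w : Fin k → ι => Y n fun i => e n (w i)) none = 0 := by
        unfold pr
        refine Finset.sum_eq_zero fun w _ => ?_
        have h3 : (Y n fun i => e n (w i)) = some (wx σ k w) := hfn w
        beta_reduce
        rw [h3]
        simp
      rw [h2, sum_wp (hconv.pr_n n), zero_add] at h1
      exact h1
    exact tendsto_of_tendsto_of_tendsto_of_le_of_le' tendsto_const_nhds hup
      (key.mono fun n h => h.1) (key.mono fun n h => h.2)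
  -- the entropy of Y
  let T : Finset SL := Finset.univ.image (wx σ k)
  let T' : Finset (Option SL) := insert none (T.image some)
  have hHY : ∀ n, Hp (wp (r n) k) (Y n) = ∑ a ∈ T', Real.negMulLog (pr (wp (r n) k) (Y n) a) := by
    intro n
    refine hL _ _ _ _ T' fun ω _ => ?_
    rcases hy : Y n ω with _ | g
    · exact Finset.mem_insert_self _ _
    · obtain ⟨w, -, hw⟩ := hfsome n _ g hy
      exact Finset.mem_insert_of_mem (Finset.mem_image_of_mem _
        (Finset.mem_image.mpr ⟨w, Finset.mem_univ _, hw⟩))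
  have hHY' : Tendsto (fun n => Hp (wp (r n) k) (Y n)) atTop (𝓝 (Hw σ m k)) := by
    have hlim : Tendsto (fun n => ∑ a ∈ T', Real.negMulLog (pr (wp (r n) k) (Y n) a)) atTop
        (𝓝 (Real.negMulLog 0 + ∑ g ∈ T, Real.negMulLog (pr (wp m k) (wx σ k) g))) := by
      have hnot : (none : Option SL) ∉ T.image some := by simp
      have h1 : ∀ n, ∑ a ∈ T', Real.negMulLog (pr (wp (r n) k) (Y n) a) =
          Real.negMulLog (pr (wp (r n) k) (Y n) none) +
            ∑ g ∈ T, Real.negMulLog (pr (wp (r n) k) (Y n) (some g)) := by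
        intro n
        rw [Finset.sum_insert hnot, Finset.sum_image (fun a _ b _ h => Option.some.inj h)]
      simp only [h1]
      refine Tendsto.add ?_ (tendsto_finsetSum _ fun g _ => ?_)
      · exact (Real.continuous_negMulLog.tendsto 0).comp hnone
      · exact (Real.continuous_negMulLog.tendsto _).comp (hsome g)
    rw [Real.negMulLog_zero, zero_add] at hlim
    have hw : Hw σ m k = ∑ g ∈ T, Real.negMulLog (pr (wp m k) (wx σ k) g) :=
      hL _ _ (wp m k) (wx σ k) T fun w _ => Finset.mem_image_of_mem _ (Finset.mem_univ _)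
    rw [hw]
    exact hlim.congr fun n => (hHY n).symm
  -- the bound
  let nn : Option SL → ℕ := fun y => if y = none then max 1 (M ^ k) else 1
  have hbound : ∀ᶠ n in atTop, Hw (τ n) (r n) k ≤ Hp (wp (r n) k) (Y n) +
      pr (wp (r n) k) (Y n) none * Real.log ((max 1 (M ^ k) : ℕ) : ℝ) := by
    filter_upwards [hev] with n hn
    have h1 : Hw (τ n) (r n) k ≤ Hp (wp (r n) k) (fun ω => (wx (τ n) k ω, Y n ω)) :=
      hM _ _ _ (wp (r n) k) (fun ω => (wx (τ n) k ω, Y n ω)) Prod.fst (hpn n)
    have h2 := hC _ _ _ (wp (r n) k) (wx (τ n) k) (Y n) nn (hpn n) (by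
      intro y
      change 1 ≤ if y = none then max 1 (M ^ k) else 1
      split_ifs
      · exact le_max_left _ _
      · exact le_rfl) (by
      intro y S hS
      change S.card ≤ if y = none then max 1 (M ^ k) else 1
      split_ifs with hy
      · refine le_trans ?_ (le_max_right _ _)
        have h3 : S ⊆ Finset.univ.image (wx (τ n) k) := by
          intro x hx
          obtain ⟨ω, hω, -⟩ := hS x hx
          exact Finset.mem_image.mpr ⟨ω, Finset.mem_univ _, hω⟩
        refine (Finset.card_le_card h3).trans (Finset.card_image_le.trans ?_)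
        rw [Finset.card_univ, Fintype.card_fun, Fintype.card_fin]
        exact Nat.pow_le_pow_left (hcard n) k
      · obtain ⟨g, rfl⟩ := Option.ne_none_iff_exists'.mp hy
        rw [Finset.card_le_one]
        intro a ha b hb
        obtain ⟨ω, hω, hYω, -⟩ := hS a ha
        obtain ⟨ω', hω', hYω', -⟩ := hS b hb
        obtain ⟨w, hw1, hw2⟩ := hfsome n _ g hYω
        obtain ⟨w', hw1', hw2'⟩ := hfsome n _ g hYω'
        rw [← hω, ← hω', ← hw1, ← hw1']
        exact (hn w w').mpr (hw2.trans hw2'.symm))
    have h3 : ∑ ω, wp (r n) k ω * Real.log (nn (Y n ω)) =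
        pr (wp (r n) k) (Y n) none * Real.log ((max 1 (M ^ k) : ℕ) : ℝ) := by
      unfold pr
      rw [Finset.sum_mul]
      refine Finset.sum_congr rfl fun ω _ => ?_
      change wp (r n) k ω * Real.log ((if Y n ω = none then max 1 (M ^ k) else 1 : ℕ) : ℝ) = _
      split_ifs
      · rfl
      · simp
    rw [h3] at h2
    linarith
  have hfin : Tendsto (fun n => Hp (wp (r n) k) (Y n) +
      pr (wp (r n) k) (Y n) none * Real.log ((max 1 (M ^ k) : ℕ) : ℝ)) atTop
      (𝓝 (Hw σ m k)) := by
    have := hHY'.add (hnone.mul_const (Real.log ((max 1 (M ^ k) : ℕ) : ℝ)))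
    simpa using this
  filter_upwards [hbound, hfin.eventually_le_const (show Hw σ m k < Hw σ m k + ε by linarith)]
    with n h1 h2
  exact h1.trans h2

end Pool.Agent.K1H65.FE
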